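import Pool.Agent.Lib.MP_04668c_co.E.Base

/-!
# FPOS: choosing the positions
-/

set_option autoImplicit false
set_option linter.unusedSectionVars false

namespace Pool.Agent.Lib.MP_04668c_co.E.H15

open Finset Classical Module
open Pool.Agent.Lib.MP_04668c_co
open Pool.Agent.Lib.MP_04668c_co.E

section fpos

variable {V X : Type} [Fintype V] [Fintype X]

/-- Forces orthogonal to the edge of the shape do no work. -/
theorem perp_mem_sp (B : X → Finset V) (q : X → V → ℝ × ℝ) (x : X) (u v : V) (hu : u ∈ B x)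
    (hv : v ∈ B x) : dip u v (perp (q x u - q x v)) ∈ sp B q := by
  refine ⟨Pi.single x (dip u v (perp (q x u - q x v))), Submodule.mem_inf.mpr
    ⟨⟨?_, ?_, ?_⟩, ?_⟩, ?_⟩
  · intro y hy; exact absurd (mem_univ _) hy
  · intro y z hz
    by_cases hyx : y = x
    · subst hyx
      rw [Pi.single_eq_same]
      have h1 : z ≠ u := fun h => hz (h ▸ hu)
      have h2 : z ≠ v := fun h => hz (h ▸ hv)
      simp [dip, h1, h2]
    · rw [Pi.single_eq_of_ne hyx]; rfl
  · intro y
    by_cases hyx : y = x
    · subst hyx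
      rw [Pi.single_eq_same]
      exact sum_dip _ _ _
    · rw [Pi.single_eq_of_ne hyx]; simp
  · rw [Submodule.mem_iInf]
    intro y
    rw [LinearMap.mem_ker]
    show ip (q y) ((Pi.single x (dip u v (perp (q x u - q x v))) : X → V → ℝ × ℝ) y) = 0
    by_cases hyx : y = x
    · subst hyx
      rw [Pi.single_eq_same, ip_dip]
      simp only [perp, Prod.fst_sub, Prod.snd_sub]
      ring
    · rw [Pi.single_eq_of_ne hyx, map_zero]
  · rw [sumMap_apply]
    simp

theorem sqd_ne_iff (l : (V → ℝ × ℝ) →ₗ[ℝ] ℝ) (u v : V) : sqd u v l ≠ 0 ↔ pos l u ≠ pos l v := by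
  unfold sqd
  constructor
  · intro h heq
    apply h
    have h1 := congrArg Prod.fst heq
    have h2 := congrArg Prod.snd heq
    simp only [pos] at h1 h2
    rw [h1, h2]; ring
  · intro h
    exact ne_zero_of_sq (f := (px u l - px v l, py u l - py v l)) (fun h0 => h (by
      have h1 := congrArg Prod.fst h0
      have h2 := congrArg Prod.snd h0
      simp only [Prod.fst_zero, Prod.snd_zero] at h1 h2
      exact Prod.ext (by simp only [pos]; linarith) (by simp only [pos]; linarith)))

theorem dt_zero_of_segment (l : (V → ℝ × ℝ) →ₗ[ℝ] ℝ) (u v w : V)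
    (h : pos l w ∈ segment ℝ (pos l u) (pos l v)) : dt u v w l = 0 := by
  obtain ⟨a, b, -, -, hab, he⟩ := h
  have h1 := congrArg Prod.fst he
  have h2 := congrArg Prod.snd he
  simp only [pos, Prod.fst_add, Prod.snd_add, Prod.smul_fst, Prod.smul_snd, smul_eq_mul] at h1 h2
  have hb : b = 1 - a := by linarith
  subst hb
  unfold dt
  rw [← h1, ← h2]
  ring

end fpos

theorem fpos : FposStatement := by
  intro V X _ _ B q hB2 hT
  set A := sp B q with hA
  have hT1 : ∀ x u v, u ∈ B x → v ∈ B x → u ≠ v → dip u v (q x u - q x v) ∉ A := by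
    intro x u v hu hv huv
    exact hT (true, x, u, v, u) ⟨hu, hv, huv, fun h => absurd h (by simp)⟩
  have hT2 : ∀ x u v w, u ∈ B x → v ∈ B x → u ≠ v → w ≠ u → w ≠ v →
      dip w u (perp (q x u - q x v)) ∉ A := by
    intro x u v w hu hv huv hwu hwv
    exact hT (false, x, u, v, w) ⟨hu, hv, huv, fun _ => ⟨hwu, hwv⟩⟩
  have hf0 : ∀ x u v, u ∈ B x → v ∈ B x → u ≠ v → q x u - q x v ≠ 0 := by
    intro x u v hu hv huv h
    apply hT1 x u v hu hv huv
    rw [h]
    have : dip u v (0 : ℝ × ℝ) = 0 := by funext z; simp [dip]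
    rw [this]
    exact A.zero_mem
  -- directions inside bodies
  have hdir : ∀ l ∈ ann A, ∀ x u v, u ∈ B x → v ∈ B x →
      ∃ t : ℝ, pos l u - pos l v = t • (q x u - q x v) := by
    intro l hl x u v hu hv
    by_cases huv : u = v
    · subst huv
      exact ⟨0, by simp⟩
    refine exists_par (hf0 x u v hu hv huv) ?_
    have h0 := hl _ (perp_mem_sp B q x u v hu hv)
    rw [dual_dip] at h0
    simp only [perp, pos, Prod.fst_sub, Prod.snd_sub] at h0 ⊢
    linear_combination h0
  have key : ∀ u v (n : ℝ × ℝ), dip u v n ∉ A → ∃ l ∈ ann A, pos l u ≠ pos l v := by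
    intro u v n hn
    obtain ⟨l, hl, hne⟩ := exists_ann A hn
    refine ⟨l, hl, fun h => hne ?_⟩
    rw [dual_dip]
    have h1 := congrArg Prod.fst h
    have h2 := congrArg Prod.snd h
    simp only [pos] at h1 h2
    rw [h1, h2]; ring
  -- a vertex in a body is separated from every other vertex
  have hbody : ∀ x u w, u ∈ B x → u ≠ w → ∃ l ∈ ann A, pos l u ≠ pos l w := by
    intro x u w hu huw
    obtain ⟨v, hv, hvu⟩ := Finset.exists_mem_ne (hB2 x) u
    by_cases hwv : w = v
    · subst hwv
      exact key u w _ (hT1 x u w hu hv huw)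
    · obtain ⟨l, hl, hne⟩ := key w u _ (hT2 x u v w hu hv hvu.symm huw.symm hwv)
      exact ⟨l, hl, hne.symm⟩
  -- distinctness
  have hdist : ∀ u w, u ≠ w → ∃ l ∈ ann A, pos l u ≠ pos l w := by
    intro u w huw
    by_cases hcu : ∃ x, u ∈ B x
    · obtain ⟨x, hx⟩ := hcu
      exact hbody x u w hx huw
    · refine key u w (1, 0) ?_
      rintro ⟨Φ, hΦ, hsum⟩
      have h1 := congrFun hsum u
      have h2 : (sumMap Φ) u = 0 := by
        rw [sumMap_apply, Finset.sum_apply]
        refine Finset.sum_eq_zero (fun x _ => ?_)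
        exact (Submodule.mem_inf.mp hΦ).1.2.1 x u (fun h => hcu ⟨x, h⟩)
      rw [h2] at h1
      simp only [dip, if_neg huw, if_true, sub_zero] at h1
      exact one_ne_zero (congrArg Prod.fst h1).symm
  -- collinearity
  have hcol : ∀ x u v w, u ∈ B x → v ∈ B x → u ≠ v → w ≠ u → w ≠ v →
      ∃ l ∈ ann A, dt u v w l ≠ 0 := by
    intro x u v w hu hv huv hwu hwv
    have t1 := hT1 x u v hu hv huv
    have t2 := hT2 x u v w hu hv huv hwu hwv
    set f := q x u - q x v with hf
    obtain ⟨l, hl, hne⟩ := exists_common (ann A) (univ : Finset (Fin 2))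
      (fun i l => if i = 0 then l (dip u v f) else l (dip w u (perp f)))
      (by
        intro i _
        by_cases hi : i = 0
        · simp only [if_pos hi]
          exact PolyLine.linear (LinearMap.applyₗ (dip u v f))
        · simp only [if_neg hi]
          exact PolyLine.linear (LinearMap.applyₗ (dip w u (perp f))))
      (by
        intro i _
        by_cases hi : i = 0
        · simp only [if_pos hi]
          exact exists_ann A t1
        · simp only [if_neg hi]
          exact exists_ann A t2)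
    have hn1 := hne 0 (mem_univ _)
    have hn2 := hne 1 (mem_univ _)
    simp only [if_true, one_ne_zero, if_false] at hn1 hn2
    refine ⟨l, hl, ?_⟩
    obtain ⟨t, ht⟩ := hdir l hl x u v hu hv
    rw [← hf] at ht
    rw [dual_dip] at hn1 hn2
    have ht1 := congrArg Prod.fst ht
    have ht2 := congrArg Prod.snd ht
    simp only [pos, Prod.fst_sub, Prod.snd_sub, Prod.smul_fst, Prod.smul_snd, smul_eq_mul]
      at ht1 ht2
    have ht0 : t ≠ 0 := by
      intro h
      apply hn1
      rw [ht1, ht2, h]; ring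
    simp only [perp] at hn2
    have e : dt u v w l = t * (-f.2 * (px w l - px u l) + f.1 * (py w l - py u l)) := by
      unfold dt
      linear_combination (py w l - py v l - (py u l - py v l)) * ht1 -
        (px w l - px v l - (px u l - px v l)) * ht2
    rw [e]
    exact mul_ne_zero ht0 hn2
  obtain ⟨l₁, hl₁, hgood⟩ := exists_common (ann A)
    ((univ : Finset (V × V × V × Fin 2)).filter
      (fun s => s.1 ≠ s.2.1 ∧ (s.2.2.2 = 0 ∨
        ((∃ x, s.1 ∈ B x ∧ s.2.1 ∈ B x) ∧ s.2.2.1 ≠ s.1 ∧ s.2.2.1 ≠ s.2.1))))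
    (fun s l => if s.2.2.2 = 0 then sqd s.1 s.2.1 l else dt s.1 s.2.1 s.2.2.1 l)
    (by
      rintro ⟨u, v, w, i⟩ _
      by_cases hi : i = 0
      · simp only [if_pos hi]; exact sqd_poly u v
      · simp only [if_neg hi]; exact dt_poly u v w)
    (by
      rintro ⟨u, v, w, i⟩ hs
      simp only [mem_filter, mem_univ, true_and] at hs
      by_cases hi : i = 0
      · simp only [if_pos hi]
        obtain ⟨l, hl, hne⟩ := hdist u v hs.1
        exact ⟨l, hl, (sqd_ne_iff l u v).mpr hne⟩
      · simp only [if_neg hi]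
        obtain ⟨⟨x, hu, hv⟩, h1, h2⟩ := hs.2.resolve_left hi
        exact hcol x u v w hu hv hs.1 h1 h2)
  refine ⟨pos l₁, ?_, ?_, ?_⟩
  · intro u v huv
    by_contra hne
    have := hgood (u, v, u, 0) (by simp [hne])
    simp only [if_true] at this
    exact (sqd_ne_iff l₁ u v).mp this huv
  · intro x u v w hu hv huv hwu hwv hseg
    have := hgood (u, v, w, 1) (by
      simp only [mem_filter, mem_univ, true_and]
      exact ⟨huv, Or.inr ⟨⟨x, hu, hv⟩, hwu, hwv⟩⟩)
    simp only [one_ne_zero, if_false] at this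
    exact this (dt_zero_of_segment l₁ u v w hseg)
  · intro x u v hu hv
    exact hdir l₁ hl₁ x v u hv hu

end Pool.Agent.Lib.MP_04668c_co.E.H15
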