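import Pool.Agent.Lib.MP_04668c_co.E.Base

/-!
# HREL: relations force failures
-/

set_option autoImplicit false
set_option linter.unusedSectionVars false

namespace Pool.Agent.Lib.MP_04668c_co.E.H15

open Finset Classical Module
open Pool.Agent.Lib.MP_04668c_co
open Pool.Agent.Lib.MP_04668c_co.E

theorem hrel : HrelStatement := by
  intro V X C _ _ _ B q ord hB hord τ x₀ u v w K c hKc hK0 hτ hKne hrel
  obtain ⟨Φ, hΦ, hnz, hz⟩ := hrel
  have hHK : Hf τ K x₀ ⊆ K := by
    unfold Hf
    split_ifs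
    exact Finset.erase_subset _ _
  have hΦ0 : Φ ≠ 0 := by
    obtain ⟨x, hx⟩ := hK0
    intro h
    exact hnz x hx (by rw [h]; rfl)
  have hB0 : ∀ x, (B x).Nonempty := fun x => by
    rw [← Finset.card_pos]; have := hB x; omega
  have hc := fail_count ord hord (lamB q) (famS B K (Pf q τ x₀ u v w (c x₀))) (Hf τ K x₀) c Φ
    hΦ0 hΦ (fun x hx => hz x (hHK hx))
  have hd := finrank_famS B hB0 K hKc (Pf q τ x₀ u v w (c x₀))
  have hp := finrank_Pf q τ x₀ u v w (c x₀)
  have hsum : ∑ x ∈ K, (2 * (B x).card - 2) = ∑ x ∈ K, (2 * (B x).card - 3) + K.card := by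
    rw [Finset.card_eq_sum_ones, ← Finset.sum_add_distrib]
    refine Finset.sum_congr rfl (fun x _ => ?_)
    have := hB x
    omega
  have hvs : 2 ≤ (vs B K).card := by
    obtain ⟨x, hx⟩ := hK0
    refine (hB x).trans (Finset.card_le_card ?_)
    intro v hv
    rw [mem_vs]
    exact ⟨x, hx, hv⟩
  have hKpos : 1 ≤ K.card := Finset.card_pos.mpr hK0
  set f := (failSet ord (lamB q) (famS B K (Pf q τ x₀ u v w (c x₀))) (Hf τ K x₀) c).card with hf
  have hsg : Rk B K = ∑ x ∈ K, (2 * (B x).card - 3) := rfl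
  rw [hsum, ← hsg] at hd
  set sg := Rk B K with hsg'
  have ht : tf τ = 1 := by unfold tf; rw [if_pos hτ]
  have hH : Hf τ K x₀ = K.erase x₀ := by unfold Hf; rw [if_pos hτ]
  rw [hH] at hc
  rw [ht] at hp
  refine ⟨?_, ?_⟩
  · by_cases hx : x₀ ∈ K
    · rw [Finset.card_erase_of_mem hx] at hc
      omega
    · rw [Finset.erase_eq_of_notMem hx] at hc
      omega
  · intro L hL hs
    -- the slack `d`
    have hd0 : sg ≤ 2 * (vs B K).card - 3 := by
      by_contra hcon
      have : L * (2 * (vs B K).card - 3) + L ≤ L * sg := by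
        rw [← Nat.mul_succ]
        exact Nat.mul_le_mul_left _ (by omega)
      have h3 : (1 : ℕ) ≤ L := hL
      omega
    obtain ⟨d, hdd⟩ : ∃ d, 2 * (vs B K).card - 3 = sg + d := ⟨_, (Nat.add_sub_cancel' hd0).symm⟩
    have hLd : K.card ≤ L * d + 1 := by
      rw [hdd, Nat.mul_add] at hs
      omega
    by_cases hx : x₀ ∈ K
    · rw [Finset.card_erase_of_mem hx] at hc
      rw [Finset.insert_eq_of_mem hx]
      have hK2 : 2 ≤ K.card := by
        by_contra hlt
        have h1 : K.card = 1 := by omega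
        obtain ⟨y, hy⟩ := Finset.card_eq_one.mp h1
        rw [hy, Finset.mem_singleton] at hx
        exact hKne (by rw [hy, hx])
      have hfd : d ≤ f := by omega
      have := Nat.mul_le_mul_left (2 * L) hfd
      have e : 2 * L * d = 2 * (L * d) := by ring
      omega
    · rw [Finset.erase_eq_of_notMem hx] at hc
      rw [Finset.card_insert_of_notMem hx]
      have hfd : d + 1 ≤ f := by omega
      have := Nat.mul_le_mul_left (2 * L) hfd
      have e : 2 * L * (d + 1) = 2 * (L * d) + 2 * L := by ring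
      omega

end Pool.Agent.Lib.MP_04668c_co.E.H15
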