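import Pool.Agent.Lib.MP_04668c_co.E.Base

/-!
# RCOV: covering the edges by bodies of at most half of the vertices
-/

set_option autoImplicit false
set_option linter.unusedSectionVars false

namespace Pool.Agent.Lib.MP_04668c_co.E.H15

open Finset Classical Module
open Pool.Agent.Lib.MP_04668c_co
open Pool.Agent.Lib.MP_04668c_co.E

section rcov

variable {V : Type} [Fintype V]

/-- The family covers the edges, and its members contain at most half of the vertices. -/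
def IsC (G : SimpleGraph V) (𝓑 : Finset (Finset V)) : Prop :=
  (∀ B ∈ 𝓑, 2 ≤ B.card ∧ 2 * B.card ≤ Fintype.card V) ∧
    ∀ u v, G.Adj u v → ∃ B ∈ 𝓑, u ∈ B ∧ v ∈ B

/-- A family of minimal cost. -/
def IsMC (G : SimpleGraph V) (L : ℕ) (𝓑 : Finset (Finset V)) : Prop :=
  IsC G 𝓑 ∧ ∀ 𝓑', IsC G 𝓑' → cost L 𝓑 ≤ cost L 𝓑'

theorem exists_mc (G : SimpleGraph V) (L : ℕ) (hV : 4 ≤ Fintype.card V) : ∃ 𝓑, IsMC G L 𝓑 := by
  obtain ⟨𝓑, h𝓑, hmin⟩ := Finset.exists_min_image
    (univ.filter (fun 𝓑 : Finset (Finset V) => IsC G 𝓑)) (cost L)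
    ⟨univ.filter (fun B : Finset V => B.card = 2), by
      rw [mem_filter]
      refine ⟨mem_univ _, fun B hB => ?_, fun u v huv => ?_⟩
      · have := (mem_filter.mp hB).2
        omega
      · refine ⟨{u, v}, ?_, by simp, by simp⟩
        rw [mem_filter]
        exact ⟨mem_univ _, by rw [Finset.card_pair huv.ne]⟩⟩
  rw [mem_filter] at h𝓑
  exact ⟨𝓑, h𝓑.2, fun 𝓑' h' => hmin 𝓑' (by rw [mem_filter]; exact ⟨mem_univ _, h'⟩)⟩

/-- Replacing a subfamily. -/
theorem rep_le (G : SimpleGraph V) (L : ℕ) (𝓑 : Finset (Finset V)) (h : IsMC G L 𝓑)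
    (𝓚 𝓚' : Finset (Finset V)) (hK : 𝓚 ⊆ 𝓑)
    (h2 : ∀ B ∈ 𝓚', 2 ≤ B.card ∧ 2 * B.card ≤ Fintype.card V)
    (hcov : ∀ u v, G.Adj u v → (∃ B ∈ 𝓚, u ∈ B ∧ v ∈ B) → ∃ B ∈ 𝓚', u ∈ B ∧ v ∈ B) :
    cost L 𝓚 ≤ cost L 𝓚' := by
  have h1 : IsC G ((𝓑 \ 𝓚) ∪ 𝓚') := by
    refine ⟨?_, ?_⟩
    · intro B hB
      rcases mem_union.mp hB with hB | hB
      · exact h.1.1 B (mem_sdiff.mp hB).1
      · exact h2 B hB
    · intro u v huv
      obtain ⟨B, hB, hu, hv⟩ := h.1.2 u v huv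
      by_cases hBK : B ∈ 𝓚
      · obtain ⟨B', hB', hu', hv'⟩ := hcov u v huv ⟨B, hBK, hu, hv⟩
        exact ⟨B', mem_union_right _ hB', hu', hv'⟩
      · exact ⟨B, mem_union_left _ (mem_sdiff.mpr ⟨hB, hBK⟩), hu, hv⟩
  have h3 := h.2 _ h1
  have h4 := cost_union_le L (𝓑 \ 𝓚) 𝓚'
  have h5 := cost_sdiff L 𝓚 𝓑 hK
  omega

theorem slack (G : SimpleGraph V) (L : ℕ) (𝓑 : Finset (Finset V)) (h : IsMC G L 𝓑)
    (𝓚 : Finset (Finset V)) (hK : 𝓚 ⊆ 𝓑) (hne : 𝓚.Nonempty)
    (hh : 2 * (𝓚.biUnion id).card ≤ Fintype.card V) :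
    L * (∑ B ∈ 𝓚, (2 * B.card - 3)) + 𝓚.card ≤ L * (2 * (𝓚.biUnion id).card - 3) + 1 := by
  have h1 := rep_le G L 𝓑 h 𝓚 {𝓚.biUnion id} hK ?_ ?_
  · rw [cost_eq] at h1
    simpa [cost] using h1
  · intro B hB
    rw [mem_singleton] at hB
    subst hB
    refine ⟨?_, hh⟩
    obtain ⟨B, hB⟩ := hne
    refine (h.1.1 B (hK hB)).1.trans (Finset.card_le_card ?_)
    intro v hv
    rw [mem_biUnion]
    exact ⟨B, hB, hv⟩
  · rintro u v - ⟨B, hB, hu, hv⟩
    refine ⟨_, mem_singleton_self _, ?_, ?_⟩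
    · rw [mem_biUnion]; exact ⟨B, hB, hu⟩
    · rw [mem_biUnion]; exact ⟨B, hB, hv⟩

theorem rconn (G : SimpleGraph V) (L : ℕ) (hL : 1 ≤ L) (𝓑 : Finset (Finset V))
    (h : IsMC G L 𝓑) (B : Finset V) (hB : B ∈ 𝓑) : Conn G.Adj B := by
  intro Y hYB hYne hYne'
  by_contra hcon
  push Not at hcon
  have hZne : (B \ Y).Nonempty := by
    rw [Finset.nonempty_iff_ne_empty]
    intro h0
    rw [Finset.sdiff_eq_empty_iff_subset] at h0
    exact hYne' (Finset.Subset.antisymm hYB h0)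
  have hcard : Y.card + (B \ Y).card = B.card := by
    rw [add_comm]; exact Finset.card_sdiff_add_card_eq_card hYB
  have hhalf := (h.1.1 B hB).2
  have h1 := rep_le G L 𝓑 h {B} (({Y, B \ Y} : Finset (Finset V)).filter (fun A => 2 ≤ A.card))
    (by simpa using hB) (fun A hA => ⟨(mem_filter.mp hA).2, by
      have hA' := (mem_filter.mp hA).1
      rw [mem_insert, mem_singleton] at hA'
      rcases hA' with rfl | rfl
      · omega
      · omega⟩) ?_
  · have h2 := (h.1.1 B hB).1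
    have hYp : 1 ≤ Y.card := Finset.card_pos.mpr hYne
    have hZp : 1 ≤ (B \ Y).card := Finset.card_pos.mpr hZne
    have hne : Y ≠ B \ Y := by
      intro heq
      obtain ⟨y, hy⟩ := hYne
      have := heq ▸ hy
      exact (mem_sdiff.mp this).2 hy
    have h3 : cost L (({Y, B \ Y} : Finset (Finset V)).filter (fun A => 2 ≤ A.card)) =
        (if 2 ≤ Y.card then L * (2 * Y.card - 3) + 1 else 0) +
        (if 2 ≤ (B \ Y).card then L * (2 * (B \ Y).card - 3) + 1 else 0) := by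
      unfold cost
      rw [Finset.sum_filter, Finset.sum_pair hne]
    have h4 : cost L ({B} : Finset (Finset V)) = L * (2 * B.card - 3) + 1 := by simp [cost]
    rw [h3, h4] at h1
    set y := Y.card with hy
    set z := (B \ Y).card with hz
    rw [← hcard] at h1
    by_cases hy2 : 2 ≤ y
    · by_cases hz2 : 2 ≤ z
      · rw [if_pos hy2, if_pos hz2] at h1
        have e : 2 * (y + z) - 3 = (2 * y - 3) + (2 * z - 3) + 3 := by omega
        rw [e, Nat.mul_add, Nat.mul_add] at h1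
        omega
      · rw [if_pos hy2, if_neg hz2] at h1
        have e : 2 * (y + z) - 3 = (2 * y - 3) + 2 := by omega
        rw [e, Nat.mul_add] at h1
        omega
    · by_cases hz2 : 2 ≤ z
      · rw [if_neg hy2, if_pos hz2] at h1
        have e : 2 * (y + z) - 3 = (2 * z - 3) + 2 := by omega
        rw [e, Nat.mul_add] at h1
        omega
      · rw [if_neg hy2, if_neg hz2] at h1
        omega
  · rintro u v huv ⟨A, hA, hu, hv⟩
    rw [mem_singleton] at hA
    subst hA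
    by_cases huY : u ∈ Y
    · have hvY : v ∈ Y := by
        by_contra hvY
        exact hcon u huY v hv hvY huv
      refine ⟨Y, ?_, huY, hvY⟩
      rw [mem_filter]
      exact ⟨by simp, Finset.one_lt_card.mpr ⟨u, huY, v, hvY, huv.ne⟩⟩
    · have hvY : v ∉ Y := by
        intro hvY
        exact hcon v hvY u hu huY huv.symm
      have hu' : u ∈ A \ Y := mem_sdiff.mpr ⟨hu, huY⟩
      have hv' : v ∈ A \ Y := mem_sdiff.mpr ⟨hv, hvY⟩
      refine ⟨A \ Y, ?_, hu', hv'⟩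
      rw [mem_filter]
      exact ⟨by simp, Finset.one_lt_card.mpr ⟨u, hu', v, hv', huv.ne⟩⟩

/-- Every vertex of a body has a neighbour in the body. -/
theorem rnbr (G : SimpleGraph V) (L : ℕ) (hL : 1 ≤ L) (𝓑 : Finset (Finset V))
    (h : IsMC G L 𝓑) (B : Finset V) (hB : B ∈ 𝓑) (v : V) (hv : v ∈ B) : ∃ u ∈ B, G.Adj v u := by
  have h2 := (h.1.1 B hB).1
  obtain ⟨y, hy, z, hz, -, hyz⟩ := rconn G L hL 𝓑 h B hB {v}
    (Finset.singleton_subset_iff.mpr hv) ⟨v, mem_singleton_self v⟩ (by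
      intro heq
      rw [← heq, Finset.card_singleton] at h2
      omega)
  rw [mem_singleton] at hy
  subst hy
  exact ⟨z, hz, hyz⟩

/-- Comparison with the edges of the body. -/
theorem redge (G : SimpleGraph V) (L : ℕ) (𝓑 : Finset (Finset V)) (h : IsMC G L 𝓑)
    (hV : 4 ≤ Fintype.card V) (B : Finset V) (hB : B ∈ 𝓑) :
    L * (2 * B.card - 3) + 1 ≤ (L + 1) * (edgeFam G B).card := by
  have h2 := rep_le G L 𝓑 h {B} (edgeFam G B) (by simpa using hB) ?_ ?_
  · have h3 : cost L ({B} : Finset (Finset V)) = L * (2 * B.card - 3) + 1 := by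
      simp [cost]
    have h4 : cost L (edgeFam G B) = (L + 1) * (edgeFam G B).card := by
      unfold cost
      rw [mul_comm (L + 1)]
      refine Finset.sum_const_nat (fun A hA => ?_)
      obtain ⟨⟨u, v⟩, hp, rfl⟩ := mem_image.mp hA
      rw [mem_pairs] at hp
      rw [Finset.card_pair hp.2.2.ne]
      omega
    rw [h3, h4] at h2
    exact h2
  · intro A hA
    obtain ⟨⟨u, v⟩, hp, rfl⟩ := mem_image.mp hA
    rw [mem_pairs] at hp
    rw [Finset.card_pair hp.2.2.ne]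
    omega
  · rintro u v huv ⟨A, hA, hu, hv⟩
    rw [mem_singleton] at hA
    subst hA
    refine ⟨{u, v}, mem_image.mpr ⟨(u, v), ?_, rfl⟩, by simp, by simp⟩
    rw [mem_pairs]
    exact ⟨hu, hv, huv⟩

end rcov

theorem rcov : RcovStatement := by
  intro V _ H n₀ L hn hL hV hD hexp
  have hV4 : 4 ≤ Fintype.card V := by omega
  have hL1 : 1 ≤ L := by omega
  obtain ⟨𝓑, h⟩ := exists_mc H L hV4
  have hsize : ∀ A ∈ 𝓑, A.card ≤ 12 * n₀ := by
    intro A hA
    have h1 := redge H L 𝓑 h hV4 A hA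
    have h2 := edgeFam_card H A
    have h3 := hexp A (h.1.1 A hA).2
    by_contra hcon
    push Not at hcon
    obtain ⟨a, ha⟩ : ∃ a, A.card = a := ⟨_, rfl⟩
    obtain ⟨e, he⟩ : ∃ e, (edgeFam H A).card = e := ⟨_, rfl⟩
    obtain ⟨P, hP⟩ : ∃ P, (pairs H A).card = P := ⟨_, rfl⟩
    rw [ha] at h1 h3 hcon
    rw [he] at h1 h2
    rw [hP] at h2 h3
    obtain ⟨c, rfl⟩ : ∃ c, a = c + 2 := ⟨a - 2, by omega⟩
    have e1 : 2 * (c + 2) - 3 = 2 * c + 1 := by omega
    rw [e1] at h1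
    obtain ⟨l, rfl⟩ : ∃ l, L = 24 * n₀ + l := ⟨L - 24 * n₀, by omega⟩
    have a1 := Nat.mul_le_mul_left (2 * n₀) h1
    have a2 := Nat.mul_le_mul_left ((24 * n₀ + l + 1) * n₀) h2
    have a3 := Nat.mul_le_mul_left (24 * n₀ + l + 1) h3
    have a4 := Nat.mul_le_mul_left (20 * n₀ + l + 1) (Nat.succ_le_of_lt hcon)
    nlinarith [a1, a2, a3, a4, mul_nonneg (Nat.zero_le n₀) (Nat.zero_le l)]
  have hpair : ∀ A ∈ 𝓑, 4 * A.card ≤ (pairs H A).card + 6 := by
    intro A hA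
    have h1 := redge H L 𝓑 h hV4 A hA
    have h2 := edgeFam_card H A
    have h3 := hsize A hA
    have h4 := (h.1.1 A hA).1
    by_contra hcon
    push Not at hcon
    obtain ⟨a, ha⟩ : ∃ a, A.card = a := ⟨_, rfl⟩
    obtain ⟨e, he⟩ : ∃ e, (edgeFam H A).card = e := ⟨_, rfl⟩
    rw [ha] at h1 h3 h4 hcon
    rw [he] at h1 h2
    have h5 : e + 4 ≤ 2 * a := by omega
    obtain ⟨c, rfl⟩ : ∃ c, a = c + 2 := ⟨a - 2, by omega⟩
    have e1 : 2 * (c + 2) - 3 = 2 * c + 1 := by omega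
    rw [e1] at h1
    have h6 : e ≤ 2 * c := by omega
    have h7 := Nat.mul_le_mul_left (L + 1) h6
    have h8 : (L + 1) * (2 * c) = L * (2 * c) + 2 * c := by ring
    have h9 : L * (2 * c + 1) = L * (2 * c) + L := by ring
    omega
  have hint : ∀ A ∈ 𝓑, ∀ A' ∈ 𝓑, A ≠ A' → (A ∩ A').card ≤ 1 := by
    intro A hA A' hA' hne
    by_contra hcon
    push Not at hcon
    have h4 := Finset.card_union_add_card_inter A A'
    have h5 := (h.1.1 A hA).1
    have h6 := (h.1.1 A' hA').1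
    have s1 := hsize A hA
    have s2 := hsize A' hA'
    have h2 := slack H L 𝓑 h {A, A'} (by
      intro B hB
      rw [mem_insert, mem_singleton] at hB
      rcases hB with rfl | rfl
      · exact hA
      · exact hA') ⟨A, by simp⟩ (by
      rw [Finset.biUnion_insert, Finset.singleton_biUnion]
      simp only [id]
      omega)
    rw [Finset.sum_pair hne, Finset.card_pair hne, Finset.biUnion_insert,
      Finset.singleton_biUnion] at h2
    simp only [id] at h2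
    have h7 : 2 * (A ∪ A').card - 3 ≤ (2 * A.card - 3) + (2 * A'.card - 3) - 1 := by omega
    have h8 : 1 ≤ (2 * A.card - 3) + (2 * A'.card - 3) := by omega
    have h9 := Nat.mul_le_mul_left L h7
    have h10 : L * ((2 * A.card - 3) + (2 * A'.card - 3) - 1) + L =
        L * ((2 * A.card - 3) + (2 * A'.card - 3)) := by
      rw [Nat.mul_sub, mul_one]
      exact Nat.sub_add_cancel (Nat.le_mul_of_pos_right L h8)
    omega
  refine ⟨𝓑, fun A hA => ⟨(h.1.1 A hA).1, hsize A hA, hpair A hA,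
    fun v hv => rnbr H L hL1 𝓑 h A hA v hv⟩, h.1.2, ?_, hint,
    fun 𝓚 hK hne hh => slack H L 𝓑 h 𝓚 hK hne hh⟩
  intro v
  have hex : ∀ B ∈ 𝓑.filter (fun B => v ∈ B), ∃ u ∈ B, H.Adj v u := by
    intro B hB
    rw [mem_filter] at hB
    exact rnbr H L hL1 𝓑 h B hB.1 v hB.2
  have : Nonempty V := ⟨v⟩
  choose! f hf using hex
  refine le_trans (Finset.card_le_card_of_injOn f ?_ ?_) (hD v)
  · intro B hB
    have := (hf B (mem_coe.mp hB)).2
    simp only [coe_filter, mem_univ, true_and, Set.mem_ofPred_eq]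
    exact this
  · intro B hB B' hB' heq
    by_contra hne
    have hB := mem_coe.mp hB
    have hB' := mem_coe.mp hB'
    have h1 := hf B hB
    have h1' := hf B' hB'
    rw [mem_filter] at hB hB'
    have h2 := hint B hB.1 B' hB'.1 hne
    have h3 : 2 ≤ (B ∩ B').card := by
      refine Finset.one_lt_card.mpr ⟨v, mem_inter.mpr ⟨hB.2, hB'.2⟩, f B, ?_, ?_⟩
      · rw [mem_inter]
        exact ⟨h1.1, heq ▸ h1'.1⟩
      · exact h1.2.ne
    omega

end Pool.Agent.Lib.MP_04668c_co.E.H15
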