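import Pool.Agent.Lib.MP_04668c_co.E.Base

/-!
# SUPP: relations have large support
-/

set_option autoImplicit false
set_option linter.unusedSectionVars false

namespace Pool.Agent.Lib.MP_04668c_co.E.H15

open Finset Classical Module
open Pool.Agent.Lib.MP_04668c_co
open Pool.Agent.Lib.MP_04668c_co.E

theorem card_X_le {V X : Type} [Fintype V] [Fintype X] (B : X → Finset V)
    (h2 : ∀ x, 2 ≤ (B x).card) (h4 : ∀ v, (univ.filter (fun x => v ∈ B x)).card ≤ 4) :
    Fintype.card X ≤ 2 * Fintype.card V := by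
  have h1 : 2 * Fintype.card X ≤ ∑ x, (B x).card := by
    calc 2 * Fintype.card X = ∑ _x : X, 2 := by
          rw [Finset.sum_const, card_univ, smul_eq_mul, mul_comm]
      _ ≤ _ := Finset.sum_le_sum (fun x _ => h2 x)
  have h3 : ∑ x, (B x).card = ∑ v, (univ.filter (fun x => v ∈ B x)).card := by
    have e1 : ∀ x, (B x).card = ∑ v, if v ∈ B x then 1 else 0 := by
      intro x
      rw [Finset.sum_boole, Finset.filter_mem_eq_inter, Finset.univ_inter]
      rfl
    have e2 : ∀ v, (univ.filter (fun x => v ∈ B x)).card = ∑ x, if v ∈ B x then 1 else 0 := by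
      intro v
      rw [Finset.sum_boole]
      rfl
    simp_rw [e1, e2]
    exact Finset.sum_comm
  have h5 : ∑ v, (univ.filter (fun x => v ∈ B x)).card ≤ 4 * Fintype.card V := by
    calc ∑ v, (univ.filter (fun x => v ∈ B x)).card ≤ ∑ _v : V, 4 :=
          Finset.sum_le_sum (fun v _ => h4 v)
      _ = 4 * Fintype.card V := by
          rw [Finset.sum_const, card_univ, smul_eq_mul, mul_comm]
  omega

/-- The counting part. -/
theorem supp_count {V X : Type} [Fintype V] [Fintype X] (G : SimpleGraph V) (S : Finset V)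
    (B : X → Finset V) (n₀ L b : ℕ) (hn : 1 ≤ n₀) (hs : Sys G S B n₀ L b)
    (K : Finset X) (m f : ℕ) (hm : m ≤ Fintype.card X) (hf : 2 * L * f < m)
    (hW : Fintype.card V < 2 * (vs B K).card) (h1 : 2 * (vs B K).card ≤ f + Rk B K + 3) :
    L * Kᶜ.card ≤ 9 * n₀ * (Fintype.card V + 3 * L) := by
  have hX := card_X_le B hs.two hs.deg
  have hlarge := hs.large (vs B K) hW
  have hKQ : K ⊆ KQ B (vs B K) := by
    intro x hx
    rw [KQ, mem_filter]
    refine ⟨mem_univ _, fun v hv => ?_⟩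
    rw [mem_vs]
    exact ⟨x, hx, hv⟩
  have hR : Rk B K + (KQ B (vs B K) \ K).card ≤ Rk B (KQ B (vs B K)) := by
    have e : Rk B (KQ B (vs B K) \ K) + Rk B K = Rk B (KQ B (vs B K)) := by
      unfold Rk
      exact Finset.sum_sdiff hKQ
    have e2 : (KQ B (vs B K) \ K).card ≤ Rk B (KQ B (vs B K) \ K) := by
      unfold Rk
      rw [Finset.card_eq_sum_ones]
      refine Finset.sum_le_sum (fun x _ => ?_)
      have := hs.two x
      omega
    omega
  have hcompl : Kᶜ ⊆ (KQ B (vs B K) \ K) ∪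
      ((vs B K)ᶜ).biUnion (fun v => univ.filter (fun x => v ∈ B x)) := by
    intro x hx
    rw [mem_compl] at hx
    rw [mem_union]
    by_cases hxQ : x ∈ KQ B (vs B K)
    · left
      exact mem_sdiff.mpr ⟨hxQ, hx⟩
    · right
      rw [KQ, mem_filter] at hxQ
      have : ¬ B x ⊆ vs B K := fun h => hxQ ⟨mem_univ _, h⟩
      obtain ⟨v, hv, hvW⟩ := Finset.not_subset.mp this
      rw [mem_biUnion]
      exact ⟨v, mem_compl.mpr hvW, by rw [mem_filter]; exact ⟨mem_univ _, hv⟩⟩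
  have hc1 := (Finset.card_le_card hcompl).trans (Finset.card_union_le _ _)
  have hc2 : (((vs B K)ᶜ).biUnion (fun v => univ.filter (fun x => v ∈ B x))).card ≤
      ((vs B K)ᶜ).card * 4 :=
    Finset.card_biUnion_le_card_mul _ _ _ (fun v _ => hs.deg v)
  obtain ⟨w, hw⟩ : ∃ w, (vs B K).card = w := ⟨_, rfl⟩
  obtain ⟨w', hw'⟩ : ∃ w', ((vs B K)ᶜ).card = w' := ⟨_, rfl⟩
  obtain ⟨R, hR0⟩ : ∃ R, Rk B K = R := ⟨_, rfl⟩
  obtain ⟨R', hR'⟩ : ∃ R', Rk B (KQ B (vs B K)) = R' := ⟨_, rfl⟩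
  obtain ⟨k', hk'⟩ : ∃ k', (KQ B (vs B K) \ K).card = k' := ⟨_, rfl⟩
  obtain ⟨k, hk⟩ : ∃ k, Kᶜ.card = k := ⟨_, rfl⟩
  rw [hw, hw', hR'] at hlarge
  rw [hR0, hR', hk'] at hR
  rw [hw, hR0] at h1
  rw [hw'] at hc2
  rw [hk, hk'] at hc1
  rw [hk]
  have hk1 : k ≤ k' + 4 * w' := by omega
  -- `2 n₀ k' + w' ≤ 2 n₀ (f + 3)`
  have a1 : 2 * n₀ * k' + w' ≤ 2 * n₀ * (f + 3) := by
    have b1 := Nat.mul_le_mul_left (2 * n₀) hR
    have b2 := Nat.mul_le_mul_left (2 * n₀) h1
    have e1 : 2 * n₀ * (R + k') = 2 * n₀ * R + 2 * n₀ * k' := by ring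
    have e2 : 2 * n₀ * (2 * w) = 4 * n₀ * w := by ring
    have e3 : 2 * n₀ * (f + R + 3) = 2 * n₀ * (f + 3) + 2 * n₀ * R := by ring
    omega
  have a2 : k' ≤ f + 3 := by
    have : 2 * n₀ * k' ≤ 2 * n₀ * (f + 3) := by omega
    exact Nat.le_of_mul_le_mul_left this (by omega)
  have a3 : w' ≤ 2 * n₀ * (f + 3) := by omega
  have a4 : k ≤ 9 * n₀ * (f + 3) := by
    have e : (f + 3) ≤ n₀ * (f + 3) := Nat.le_mul_of_pos_left _ hn
    nlinarith
  have a5 : L * f ≤ Fintype.card V := by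
    have : 2 * L * f = 2 * (L * f) := by ring
    omega
  calc L * k ≤ L * (9 * n₀ * (f + 3)) := Nat.mul_le_mul_left _ a4
    _ = 9 * n₀ * (L * f + 3 * L) := by ring
    _ ≤ 9 * n₀ * (Fintype.card V + 3 * L) := Nat.mul_le_mul_left _ (by omega)

theorem supp (hrel : HrelStatement) : SuppStatement := by
  intro V X C _ _ _ G S B n₀ L b q ord c hn hL hs hord hH hinj hgen i hi hsp
  obtain ⟨ty, x₀, u, v, w⟩ := i
  obtain ⟨hu, hv, huv, hww⟩ := hi
  simp only at hu hv huv hww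
  -- the test force
  set ψ := tv (qc q c) (ty, x₀, u, v, w) with hψ
  set f := q (c x₀) x₀ u - q (c x₀) x₀ v with hf
  have hf0 : f ≠ 0 := sub_ne_zero.mpr (hinj _ _ _ _ hu hv huv)
  have hpf0 : perp f ≠ 0 := by
    intro h
    apply hf0
    have h1 := congrArg Prod.fst h
    have h2 := congrArg Prod.snd h
    simp only [perp, Prod.fst_zero, Prod.snd_zero, neg_eq_zero] at h1 h2
    exact Prod.ext h2 h1
  have hspA : ψ ∈ spA B q c := hsp
  have hind : Indec ψ := by
    cases ty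
    · exact indec_dip w u (perp f)
    · exact indec_dip u v f
  obtain ⟨K, Φ, hK, hΦ, hnz, hz, hsum⟩ := conn_rep B q c ψ hind hspA
  have hψu : ψ u ≠ 0 := by
    cases ty
    · have e : ψ = dip w u (perp f) := rfl
      rw [e]
      have hwu := (hww rfl).1
      simp [dip, hwu.symm, hpf0]
    · have e : ψ = dip u v f := rfl
      rw [e]
      simp [dip, huv, hf0]
  have huK : u ∈ vs B K := mem_vs_of_ne B K Φ hΦ u (by rw [hsum]; exact hψu)
  have huK' := huK
  rw [mem_vs] at huK'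
  obtain ⟨x, hx, hux⟩ := huK'
  have hne : K ≠ {x₀} := by
    intro h
    rw [h] at hΦ hz
    have h1 := hz x₀ (Finset.mem_singleton_self _)
    cases ty
    · have e : ψ = dip w u (perp f) := rfl
      have hwu := (hww rfl).1
      have hwv := (hww rfl).2
      have hwK : w ∈ vs B {x₀} := by
        refine mem_vs_of_ne B {x₀} Φ hΦ w ?_
        rw [hsum, e]; simp [dip, hwu, hpf0]
      have hwB : w ∈ B x₀ := by
        rw [mem_vs] at hwK
        obtain ⟨y, hy, hwy⟩ := hwK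
        rw [Finset.mem_singleton] at hy
        exact hy ▸ hwy
      rw [← sumMap_single B x₀ Φ hΦ, hsum, e, ip_dip] at h1
      apply hgen (c x₀) x₀ u v w hu hv hwB huv hwu hwv
      rw [← hf]
      simp only [perp] at h1
      linarith
    · have e : ψ = dip u v f := rfl
      rw [← sumMap_single B x₀ Φ hΦ, hsum, e, ip_dip] at h1
      apply ne_zero_of_sq hf0
      rw [hf]; exact h1
  have hins : Conn (adjB B) (insert x₀ K) := conn_insert B K hK x₀ ⟨x, hx, u, hu, hux⟩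
  have hsub : vs B K ⊆ vs B (insert x₀ K) :=
    Finset.biUnion_subset_biUnion_of_subset_left _ (Finset.subset_insert _ _)
  have hv' : v ∈ vs B (insert x₀ K) := by
    rw [mem_vs]; exact ⟨x₀, Finset.mem_insert_self _ _, hv⟩
  -- the relation
  have hmain : ∃ (τ : Fin 4) (w' : V), τ.val < 2 ∧ w' ∈ vs B (insert x₀ K) ∧
      HasRel B q K (Pf q τ x₀ u v w' (c x₀)) c := by
    cases ty
    · have e : ψ = dip w u (perp f) := rfl
      have hwu := (hww rfl).1
      have hwK : w ∈ vs B K := by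
        refine mem_vs_of_ne B K Φ hΦ w ?_
        rw [hsum, e]; simp [dip, hwu, hpf0]
      refine ⟨1, w, by decide, hsub hwK, Φ, ⟨hΦ, ?_⟩, hnz, hz⟩
      show sumMap Φ ∈ Pf q 1 x₀ u v w (c x₀)
      rw [hsum, e]
      simp only [Pf, if_true, one_ne_zero, if_false]
      exact Submodule.mem_span_singleton_self _
    · have e : ψ = dip u v f := rfl
      refine ⟨0, u, by decide, hsub huK, Φ, ⟨hΦ, ?_⟩, hnz, hz⟩
      show sumMap Φ ∈ Pf q 0 x₀ u v u (c x₀)
      rw [hsum, e]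
      simp only [Pf, if_true]
      exact Submodule.mem_span_singleton_self _
  obtain ⟨τ, w', hτ, hw', hR⟩ := hmain
  have hHH := hH τ x₀ u v w' K hτ hK ⟨x, hx⟩ hne hins (hsub huK) hv' hw' hR
  obtain ⟨r1, r2⟩ := hrel V X C B q ord hs.two hord τ x₀ u v w' K c hK ⟨x, hx⟩ hτ hne hR
  set fl := (failSet ord (lamB q) (famS B K (Pf q τ x₀ u v w' (c x₀))) (Hf τ K x₀) c).card
    with hfl
  have hW : Fintype.card V < 2 * (vs B K).card := by
    by_contra hcon
    push Not at hcon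
    have h3 := r2 L hL (hs.small K ⟨x, hx⟩ hcon)
    omega
  refine ⟨K, Φ, ?_, hsum, hnz, supp_count G S B n₀ L b hn hs K (insert x₀ K).card fl
    (Finset.card_le_univ _) hHH hW r1⟩
  refine Submodule.mem_inf.mpr ⟨⟨fun y hy => absurd (mem_univ y) hy, hΦ.2.1, hΦ.2.2⟩, ?_⟩
  rw [Submodule.mem_iInf]
  intro y
  rw [LinearMap.mem_ker]
  show ip (q (c y) y) (Φ y) = 0
  by_cases hy : y ∈ K
  · exact hz y hy
  · rw [hΦ.1 y hy, map_zero]

end Pool.Agent.Lib.MP_04668c_co.E.H15
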